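import Mathlib
import Pool.Agent.H486Z.CRDefs
import Pool.Agent.H486Z.CRMain

/-!
A continuous CR self-map of a product of two spheres that is not of class `C^{k - 1/2 - 0}` for
any `k ≥ 2`.
-/

set_option autoImplicit false

namespace Pool.Agent.Results.MP_c8d476_an.NotRegular

open Pool.Agent.H486Z.CR

theorem result : ∃ N : ℕ, LeviCondition (sphereProd N) ∧ ∃ f : Cn (2 + N) → Cn (2 + N),
    IsCRMap (sphereProd N) (sphereProd N) f ∧
      ∀ k : ℕ∞, 2 ≤ k → IsCRSubmanifold k N (sphereProd N) ∧ ¬ Regular k (sphereProd N) f :=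
  main

end Pool.Agent.Results.MP_c8d476_an.NotRegular
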